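import Pool.Agent.H60.QV.Gen

/-!
# Continuum many quasi-varieties generated by automorphism groups of chains in one variety

`Aut Ω` is the group of all order automorphisms of the chain `Ω` (composition of maps) with the
pointwise order; `⊔` and `⊓` are the pointwise maximum and minimum
(file `Pool/Agent/H60/QV/Defs.lean`).

`Term` is the type of the terms in the language `(·, ⁻¹, 1, ∧, ∨)`; a quasi-identity `q : QId`
is the list of the equations in its premise together with the equation in its conclusion;
`Sat G q` says that it holds in `G`. `quasiTheory G` is the set of all quasi-identities that hold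
in `G` (it determines, and is determined by, the quasi-variety generated by `G`), and
`idTheory G` is the set of all identities that hold in `G` (the same for the variety generated
by `G`).

`Zn n` is the lexicographic product of `n + 1` copies of `ℤ` (`Zn 0 = ℤ`,
`Zn (n + 1) = ℤ ×ₗ Zn n`), and `bs p` is the quasi-identity `(y⁻¹ x y)^p = x → x = 1`.
-/

set_option autoImplicit false

namespace Pool.Agent.Results.MP_39e98c_al.ContinuumManyQuasivarieties

open Pool.Agent.H60.QV Cardinal

/-- Let `n` be any natural number, so that `Zn (n + 1)` is the lexicographic product of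
`n + 2 ≥ 2` copies of `ℤ`.

1. For every set `T` of primes there is a chain `Ω` such that `Aut Ω` and `Aut (Zn (n + 1))`
satisfy the same identities (they generate the same variety of `ℓ`-groups), and for every prime
`p` the quasi-identity `(y⁻¹ x y)^p = x → x = 1` holds in `Aut Ω` if and only if `p` is not
in `T`.

2. Hence the quasi-varieties generated by the `ℓ`-groups `Aut Ω` with the same identities as
`Aut (Zn (n + 1))` are as many as they can be: there are exactly `2^ℵ₀` of them. -/
theorem result (n : ℕ) :
    (∀ T : Set ℕ, ∃ (Ω : Type) (_ : LinearOrder Ω),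
      idTheory (Aut Ω) = idTheory (Aut (Zn (n + 1))) ∧
        ∀ p : ℕ, p.Prime → (Sat (Aut Ω) (bs p) ↔ p ∉ T)) ∧
    #{Q : Set QId | ∃ (Ω : Type) (_ : LinearOrder Ω),
      idTheory (Aut Ω) = idTheory (Aut (Zn (n + 1))) ∧ Q = quasiTheory (Aut Ω)} = 𝔠 :=
  ⟨fun T => ⟨Ch T n, instCh T n, idTheory_Ch T n, fun _ hp => sat_Ch_iff T n hp⟩, card_eq_n n⟩

end Pool.Agent.Results.MP_39e98c_al.ContinuumManyQuasivarieties
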